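import Pool.Agent.K1H22.SR.Stm
import Pool.Agent.TH107.Hur
import Pool.Agent.R330.BP.Basic

/-! The reflection length is the least number of letters whose deletion gives a word for `1`
(project SR, piece DYER). -/

set_option autoImplicit false

namespace Pool.Agent.K1H68.SR

open CoxeterSystem Pool.Agent.K1H22.SR Pool.Agent.TH107

variable {B W : Type} [Group W] {M : CoxeterMatrix B} {cs : CoxeterSystem M W}

theorem prod_map_conj (s : W) (l : List W) :
    (l.map fun t => s * t * s⁻¹).prod = s * l.prod * s⁻¹ := by
  induction l with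
  | nil => simp
  | cons a l ih =>
    rw [List.map_cons, List.prod_cons, ih, List.prod_cons]
    group

theorem deletion {u ω : List B} (h : u.Sublist ω) : ∃ l : List W,
    (∀ t ∈ l, cs.IsReflection t) ∧ l.length + u.length = ω.length ∧
      cs.wordProd ω = l.prod * cs.wordProd u := by
  induction h with
  | slnil => exact ⟨[], by simp, rfl, by simp⟩
  | cons i _ ih =>
    obtain ⟨l, h1, h2, h3⟩ := ih
    refine ⟨cs.simple i :: l, ?_, ?_, ?_⟩
    · intro t ht
      rcases List.mem_cons.1 ht with rfl | ht
      · exact cs.isReflection_simple i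
      · exact h1 t ht
    · simp only [List.length_cons]; omega
    · rw [wordProd_cons, h3, List.prod_cons, mul_assoc]
  | cons_cons i _ ih =>
    obtain ⟨l, h1, h2, h3⟩ := ih
    refine ⟨l.map fun t => cs.simple i * t * (cs.simple i)⁻¹, ?_, ?_, ?_⟩
    · intro t ht
      obtain ⟨r, hr, rfl⟩ := List.mem_map.1 ht
      exact (h1 r hr).conj _
    · simp only [List.length_cons, List.length_map]; omega
    · rw [wordProd_cons, wordProd_cons, h3, prod_map_conj]
      group

theorem rl_le {l : List W} (hl : ∀ t ∈ l, cs.IsReflection t) : rl cs l.prod ≤ l.length :=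
  Nat.sInf_le ⟨l, rfl, hl, rfl⟩

theorem exists_min (w : W) : ∃ f : List W, f.length = rl cs w ∧ (∀ t ∈ f, cs.IsReflection t) ∧
    f.prod = w := by
  have hne : {n : ℕ | ∃ l : List W, l.length = n ∧ (∀ t ∈ l, cs.IsReflection t) ∧
      l.prod = w}.Nonempty := by
    obtain ⟨ω, -, h⟩ := cs.exists_isReduced w
    refine ⟨_, ω.map cs.simple, rfl, ?_, ?_⟩
    · intro t ht
      obtain ⟨i, -, rfl⟩ := List.mem_map.1 ht
      exact cs.isReflection_simple i
    · rw [h]; rfl
  exact Nat.sInf_mem hne

theorem upp_prefix (h : List W) (g : List W) : ∀ x : W, upp cs x (g ++ h) → upp cs x g := by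
  induction g with
  | nil => intro x _; trivial
  | cons t g ih =>
    intro x hx
    exact ⟨hx.1, ih _ hx.2⟩

theorem descend (f : List W) : (∀ t ∈ f, cs.IsReflection t) → upp cs 1 f → ∀ ω : List B,
    cs.wordProd ω = f.prod →
    ∃ u : List B, u.Sublist ω ∧ cs.wordProd u = 1 ∧ f.length + u.length = ω.length := by
  induction f using List.reverseRecOn with
  | nil =>
    intro _ _ ω hω
    exact ⟨ω, List.Sublist.refl _, by rw [hω]; rfl, by simp⟩
  | append_singleton g r ih =>
    intro hf hup ω hω
    have hr : cs.IsReflection r := hf r (by simp)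
    have h1 := upp_last g 1 r hup
    rw [one_mul] at h1
    have h2 : (g ++ [r]).prod = g.prod * r := by simp
    rw [h2] at hω
    have h3 : (cs.wordProd ω * r * (cs.wordProd ω)⁻¹) * cs.wordProd ω = g.prod := by
      rw [inv_mul_cancel_right, hω, mul_assoc, hr.mul_self, mul_one]
    have h4 : (cs.wordProd ω * r * (cs.wordProd ω)⁻¹) ∈
        Pool.Agent.Helper376.LC.Ninv cs (cs.wordProd ω) := by
      refine ⟨hr.conj _, ?_⟩
      rw [h3, hω]
      exact h1
    obtain ⟨σ, hs1, hs2, hs3⟩ := Pool.Agent.R330.BP.strong_exchange ω _ h4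
    rw [h3] at hs3
    obtain ⟨u, hu1, hu2, hu3⟩ := ih (fun t ht => hf t (by simp [ht])) (upp_prefix [r] g 1 hup) σ
      hs3.symm
    refine ⟨u, hu1.trans hs1, hu2, ?_⟩
    rw [List.length_append, List.length_singleton]
    omega

theorem t_DYER : S_DYER := by
  intro B W _ _ _ M cs ω
  refine ⟨?_, ?_⟩
  · intro u hu hu1
    obtain ⟨l, h1, h2, h3⟩ := deletion (cs := cs) hu
    rw [hu1, mul_one] at h3
    have h4 := rl_le (cs := cs) h1
    rw [← h3] at h4
    omega
  · obtain ⟨f, hf1, hf2, hf3⟩ := exists_min (cs := cs) (cs.wordProd ω)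
    rcases valley (cs := cs) 1 f hf2 with ⟨f', hH, hnp⟩ | ⟨a, t, b, hH⟩
    · have hf' := hH.refls hf2
      have hup : upp cs 1 f' := by
        match f', hnp, hf' with
        | [], _, _ => trivial
        | t :: g, hnp, hf' =>
          refine nopeak_up g 1 t (fun u hu => hf' u (List.mem_cons_of_mem _ hu)) hnp ?_
          have ht : cs.IsReflection t := hf' t (by simp)
          have := ht.length_mul_left_ne 1
          rw [cs.length_one] at this ⊢
          omega
      obtain ⟨u, hu1, hu2, hu3⟩ := descend f' hf' hup ω (by rw [← hH.prod, hf3])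
      refine ⟨u, hu1, hu2, ?_⟩
      rw [← hf1, hH.length]
      exact hu3
    · exfalso
      have hf' := hH.refls hf2
      have hlen := hH.length
      have hpr := hH.prod
      have ht : cs.IsReflection t := hf' t (by simp)
      have h1 : (a ++ b).prod = cs.wordProd ω := by
        rw [← hf3, hpr]
        simp only [List.prod_append, List.prod_cons]
        rw [← mul_assoc t t, ht.mul_self, one_mul]
      have h2 := rl_le (cs := cs) (l := a ++ b) (fun u hu =>
        hf' u (by simp only [List.mem_append, List.mem_cons] at hu ⊢; tauto))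
      rw [h1, ← hf1, hlen] at h2
      simp only [List.length_append, List.length_cons] at h2
      omega

end Pool.Agent.K1H68.SR

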